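import Pool.Agent.V1143.CD.Main

/-!
# The category of mixed potentially semistable representations has a nonzero `Ext²`

For `k = ℚ` and every prime `ℓ`, there are objects `V` and `W` of the category `C` of mixed potentially
semistable `ℓ`-adic representations of the absolute Galois group of `ℚ`, and a Yoneda extension of
length two of `V` by `W` in `C`, which is not equivalent to the zero extension.
-/

set_option autoImplicit false

namespace Pool.Agent.Results.MP_5968e7_ag.ExtTwoNonzero

open Pool.Agent.V1143.CD

theorem result (ℓ : ℕ) [Fact ℓ.Prime] (B : PeriodRing ℓ) :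
    ∃ (V W : Rep ℓ) (hV : InC B V) (hW : InC B W) (ξ : TwoExt (InC B) V W),
      ¬ ξ.Equiv (TwoExt.zero hV hW) := by
  obtain ⟨ξ, hξ⟩ := exists_ext_two ℓ B
  exact ⟨_, _, _, _, ξ, hξ⟩

end Pool.Agent.Results.MP_5968e7_ag.ExtTwoNonzero
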